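import Pool.Agent.Q5.VA.Abel
import Pool.Agent.Q5.MS.Lead

/-!
# The leading coefficient for abelian varieties from sharp products over primes, in mean square

Let `A` be an abelian variety of dimension `g` over a number field `K` (for example `K = ℚ`), embedded in a
projective space and given there by homogeneous polynomials with coefficients in `𝓞 K`, and let `S` be a finite set
of primes such that for `v ∉ S` there are Weil numbers `α_{v,1}, …, α_{v,2g}` of absolute value `√q_v` with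
`#A(κ) = ∏_j (1 - α_{v,j}^e)` for the extensions `κ` of degree `e` of the residue field `k_v` (by the theorem of Weil
this is so if `S` contains the primes of bad reduction and the bad primes of the equations). Let `F` be a
continuation of the `L`-function `L(A, s) = ∏_{v ∉ S} ∏_j (1 - α_{v,j} q_v^{-s})⁻¹` to a half plane `Re s > 1 - η`,
analytic except perhaps for a pole at `s = 1`, of polynomial growth. Let

`P(y) = ∏_{v ∉ S, q_v ≤ y} #A(k_v)/q_v^g`,
`P*(y) = exp (- ∑_{v ∉ S, q_v^k ≤ y} (∑_j α_{v,j}^k)/(k q_v^k))`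

be the product of the local densities of Birch and Swinnerton-Dyer and the product with the prime powers, both with
the SHARP cut-off. Then for all real `ρ` and all `B > 0` the following are equivalent:

* `ρ` is an integer, `F(s)/(s - 1)^ρ → B` for `s → 1`, and `F` has no zeros with `Re s > 1`;
* `∫_e^∞ (log (B P*(y) / (e^γ log y)^ρ))² dy/y < ∞`;
* `(log Y)⁻¹ ∫_e^Y |log (B P*(y) / (e^γ log y)^ρ)| dy/y → 0`;
* if moreover `∑_{√y < q_v ≤ y} (∑_j α_{v,j}²)/(2 q_v²) → c`:
  `(log Y)⁻¹ ∫_e^Y |log (B e^c P(y) / (e^γ log y)^ρ)| dy/y → 0`, a statement on the product of the local densities.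

In this case `P*(y) ∼ (e^γ log y)^ρ/B` outside of sets of finite logarithmic measure. The conjecture of Birch and
Swinnerton-Dyer predicts `ρ = rank A(K)` and for `K = ℚ` the leading value
`B = #Ш R_A V_∞ V_bad / (#A(ℚ)_tors #A'(ℚ)_tors)`; with these values the law says exactly: the formula for the leading
value and the Riemann hypothesis hold for `A`.

For elliptic curves this is `MeanSquareLeading` of problem `MP_1a91b9_nt`. The proof is in `Pool.Agent.Q5.MS` and
`Pool.Agent.Q5.VA`, based on `Pool.Agent.TH270.MS` (helper270) and `Pool.Agent.TH942.ES` (helper942).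
-/

set_option autoImplicit false

namespace Pool.Agent.Results.MP_dfae13_nt.MeanSquareLeadingAbelian

open Filter Topology Set Complex NumberField IsDedekindDomain MeasureTheory

variable {K : Type} [Field K] [NumberField K] {n : ℕ}

/-- The norm `q_v`. -/
noncomputable def norm (v : HeightOneSpectrum (𝓞 K)) : ℕ := Ideal.absNorm v.asIdeal

/-- The set `X` of homogeneous polynomials over a ring `R` in `n` variables defines a projective
scheme over `R`.  For a field `κ` with `q` elements and a homomorphism `R → κ` this is `(q - 1)`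
times the number of the points of `X` with coordinates in `κ`: the number of the nonzero solutions
of the equations. -/
noncomputable def cone {R : Type} [CommRing R] (X : Set (MvPolynomial (Fin n) R)) {κ : Type}
    [Field κ] (φ : R →+* κ) : ℕ :=
  Nat.card {u : Fin n → κ // u ≠ 0 ∧ ∀ f ∈ X, MvPolynomial.eval₂ φ u f = 0}

/-- For every prime `v` outside of `S` the numbers `α v j` are the Frobenius eigenvalues at `v` of the abelian
variety `X` of dimension `g`: they have the absolute value `√q_v`, and for every finite extension `κ` of the residue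
field of `v`, of degree `e`, the number of the points of `X` with coordinates in `κ` is `∏_j (1 - α_j^e)`. -/
def IsWeil (X : Set (MvPolynomial (Fin n) (𝓞 K))) (g : ℕ) (S : Finset (HeightOneSpectrum (𝓞 K)))
    (α : HeightOneSpectrum (𝓞 K) → Fin (2 * g) → ℂ) : Prop :=
  ∀ v : HeightOneSpectrum (𝓞 K), v ∉ S → (∀ j, ‖α v j‖ = √(norm v : ℝ)) ∧
    ∀ (κ : Type) [Field κ] [Finite κ] (φ : 𝓞 K →+* κ) (e : ℕ), RingHom.ker φ = v.asIdeal →
      Nat.card κ = norm v ^ e → (cone X φ : ℂ) = ((norm v : ℂ) ^ e - 1) * ∏ j, (1 - α v j ^ e)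

/-- The number `#X(k_v)` of the points over the residue field `k_v = 𝓞 K / v`: the number of the nonzero
solutions, divided by `q_v - 1`. -/
noncomputable def points (X : Set (MvPolynomial (Fin n) (𝓞 K))) (v : HeightOneSpectrum (𝓞 K)) : ℝ :=
  (Nat.card {u : Fin n → (𝓞 K ⧸ v.asIdeal) // u ≠ 0 ∧
    ∀ f ∈ X, MvPolynomial.eval₂ (Ideal.Quotient.mk v.asIdeal) u f = 0} : ℝ) / (norm v - 1)

/-- `F` is a continuation of the `L`-function `∏_{v ∉ S} ∏_j (1 - α_{v,j} q_v^{-s})⁻¹` (`Re s > 3/2`) to a half plane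
`Re s > 1 - η`: for some `k` the function `(s - 1)^k F(s)` is analytic and of polynomial growth there. -/
def Tempered {g : ℕ} (S : Finset (HeightOneSpectrum (𝓞 K)))
    (α : HeightOneSpectrum (𝓞 K) → Fin (2 * g) → ℂ) (F : ℂ → ℂ) : Prop :=
  (∃ (η C : ℝ) (k κ : ℕ) (G : ℂ → ℂ), 0 < η ∧
    (∀ s : ℂ, 1 - η < s.re → DifferentiableAt ℂ G s ∧ ‖G s‖ ≤ C * (1 + ‖s‖) ^ κ) ∧
    ∀ s : ℂ, 1 - η < s.re → s ≠ 1 → G s = (s - 1) ^ k * F s) ∧
  ∀ s : ℂ, (3 : ℝ) / 2 < s.re →
    HasProd (fun v : {v : HeightOneSpectrum (𝓞 K) // v ∉ S} =>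
      (∏ j, (1 - α v.1 j * (norm v.1 : ℂ) ^ (-s)))⁻¹) (F s)

/-- The primes `v` outside of `S` with `q_v ≤ y`. -/
def upTo (S : Finset (HeightOneSpectrum (𝓞 K))) (y : ℝ) : Set (HeightOneSpectrum (𝓞 K)) :=
  {v | v ∉ S ∧ (norm v : ℝ) ≤ y}

/-- `P(y) = ∏_{v ∉ S, q_v ≤ y} #A(k_v)/q_v^g`, a finite product. -/
noncomputable def product (X : Set (MvPolynomial (Fin n) (𝓞 K))) (g : ℕ)
    (S : Finset (HeightOneSpectrum (𝓞 K))) (y : ℝ) : ℝ :=
  ∏ᶠ v ∈ upTo S y, points X v / (norm v : ℝ) ^ g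

/-- `P*(y) = exp (- ∑_{v ∉ S, q_v^k ≤ y} (∑_j α_{v,j}^k)/(k q_v^k))`, the (finite) sum over the pairs `(v, k)`,
`v` a prime outside of `S`, `k = p.2 + 1 ≥ 1`, with `q_v^k ≤ y`; the power sums are real. -/
noncomputable def productStar {g : ℕ} (S : Finset (HeightOneSpectrum (𝓞 K)))
    (α : HeightOneSpectrum (𝓞 K) → Fin (2 * g) → ℂ) (y : ℝ) : ℝ :=
  Real.exp (-∑ᶠ (p : {v : HeightOneSpectrum (𝓞 K) // v ∉ S} × ℕ)
    (_ : (norm p.1.1 : ℝ) ^ (p.2 + 1) ≤ y),
      (∑ j, α p.1.1 j ^ (p.2 + 1)).re / (((p.2 : ℝ) + 1) * (norm p.1.1 : ℝ) ^ (p.2 + 1)))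

/-- `ρ` is an integer `m`, `F(s)/(s - 1)^m → B` for `s → 1`, and `F` has no zeros with `Re s > 1`. -/
def LeadingRH (F : ℂ → ℂ) (ρ B : ℝ) : Prop :=
  (∃ m : ℤ, ρ = m ∧ Tendsto (fun s => F s / (s - 1) ^ m) (𝓝[≠] 1) (𝓝 (B : ℂ))) ∧
    ∀ s : ℂ, 1 < s.re → F s ≠ 0

/-- `log (B P*(y) / (e^γ log y)^ρ)`. -/
noncomputable def devStar {g : ℕ} (S : Finset (HeightOneSpectrum (𝓞 K)))
    (α : HeightOneSpectrum (𝓞 K) → Fin (2 * g) → ℂ) (ρ B y : ℝ) : ℝ :=
  Real.log (B * productStar S α y / (Real.exp Real.eulerMascheroniConstant * Real.log y) ^ ρ)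

/-- `log (B e^c P(y) / (e^γ log y)^ρ)`. -/
noncomputable def dev (X : Set (MvPolynomial (Fin n) (𝓞 K))) (g : ℕ)
    (S : Finset (HeightOneSpectrum (𝓞 K))) (ρ B c y : ℝ) : ℝ :=
  Real.log (B * Real.exp c * product X g S y /
    (Real.exp Real.eulerMascheroniConstant * Real.log y) ^ ρ)

/-- `∑_{√y < q_v ≤ y} (∑_j α_{v,j}²)/(2 q_v²)`. -/
noncomputable def squares {g : ℕ} (S : Finset (HeightOneSpectrum (𝓞 K)))
    (α : HeightOneSpectrum (𝓞 K) → Fin (2 * g) → ℂ) (y : ℝ) : ℝ :=
  ∑ᶠ (v : {v : HeightOneSpectrum (𝓞 K) // v ∉ S}) (_ : √y < norm v.1 ∧ (norm v.1 : ℝ) ≤ y),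
    (∑ j, α v.1 j ^ 2).re / (2 * (norm v.1 : ℝ) ^ 2)

/-! ### translation -/

open Pool.Agent.TH942.ES (cv zv xv cP Sys)
open Pool.Agent.H921R2.TatePole (nm two_le_nm)
open Pool.Agent.TH270.MS (Pl Mc DvR Dv fin_log_meas dv_meas)
open Pool.Agent.Q5.MS (Pv Sq)
open Pool.Agent.Q5.VA (NS aD Frob)

variable {X : Set (MvPolynomial (Fin n) (𝓞 K))} {g : ℕ}
  {S : Finset (HeightOneSpectrum (𝓞 K))} {α : HeightOneSpectrum (𝓞 K) → Fin (2 * g) → ℂ} {F : ℂ → ℂ}

theorem weil (h : IsWeil X g S α) {v : HeightOneSpectrum (𝓞 K)} (hv : v ∉ S) :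
    Q5.VA.IsWeil X g v (α v) := h v hv

theorem frob (h : IsWeil X g S α) : Frob X g 1 S α := fun _ hv => (weil h hv).frob

theorem one_eq : (((1 : ℕ) : ℝ) + 1) / 2 = 1 := by norm_num

theorem cv_eq (h : IsWeil X g S α) (v : {v : HeightOneSpectrum (𝓞 K) // v ∉ S}) :
    cv (NS S) (aD 1 S α) v = Real.log (points X v.1 / (norm v.1 : ℝ) ^ g) := by
  rw [(frob h).cv_eq v, one_eq, Q5.VA.norm_prod_factor (weil h v.2),
    ← Q5.VA.cone0_eq (weil h v.2)]
  rfl

theorem points_pos (h : IsWeil X g S α) {v : HeightOneSpectrum (𝓞 K)} (hv : v ∉ S) :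
    0 < points X v / (norm v : ℝ) ^ g := by
  have hp2 : (2 : ℝ) ≤ norm v := by exact_mod_cast two_le_nm v
  have h1 : points X v = ‖∏ j, (1 - α v j)‖ := Q5.VA.cone0_eq (weil h hv)
  have h2 : 0 < ‖∏ j, (1 - α v j)‖ := by
    rw [norm_pos_iff, Finset.prod_ne_zero_iff]
    intro j _ h3
    have h4 : ‖α v j‖ = √(norm v : ℝ) := (weil h hv).1 j
    rw [← sub_eq_zero.1 h3, norm_one] at h4
    have h5 : (1 : ℝ) < √(norm v : ℝ) := by
      rw [Real.lt_sqrt zero_le_one]
      linarith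
    linarith
  rw [h1]
  positivity

theorem cP_eq (p : {v : HeightOneSpectrum (𝓞 K) // v ∉ S} × ℕ) :
    cP (NS S) (aD 1 S α) p = (∑ j, α p.1.1 j ^ (p.2 + 1)).re /
      (((p.2 : ℝ) + 1) * (norm p.1.1 : ℝ) ^ (p.2 + 1)) := by
  rw [Q5.VA.cP_D (1 : ℝ) one_eq.symm p, Real.rpow_one]
  rfl

theorem log_star (y : ℝ) :
    Real.log (productStar S α y) = -Pl (NS S) (aD 1 S α) y := by
  unfold productStar Pl
  rw [Real.log_exp]
  congr 1
  refine finsum_congr fun p => finsum_congr fun _ => ?_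
  exact (cP_eq p).symm

theorem star_pos (y : ℝ) : 0 < productStar S α y := Real.exp_pos _

theorem squares_eq : squares S α = Sq (NS S) (aD 1 S α) := by
  funext y
  unfold squares Sq
  refine finsum_congr fun v => finsum_congr fun _ => ?_
  rw [cP_eq (v, 1)]
  norm_num

theorem log_product (hg : 1 ≤ g) (h : IsWeil X g S α) (y : ℝ) :
    Real.log (product X g S y) = Pv (NS S) (aD 1 S α) y := by
  classical
  have E := (frob h).sys (by omega)
  have hfin : (upTo S y).Finite := by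
    have h1 := (E.fin_le y).image Subtype.val
    refine h1.subset fun v hv => ?_
    exact ⟨⟨v, hv.1⟩, hv.2, rfl⟩
  have h2 : product X g S y = ∏ v ∈ hfin.toFinset, points X v / (norm v : ℝ) ^ g :=
    finprod_mem_eq_finite_toFinset_prod _ hfin
  rw [h2, Real.log_prod]
  · rw [Pool.Agent.Q5.MS.pv_eq E]
    refine Finset.sum_bij' (i := fun v hv => ⟨v, ((Set.Finite.mem_toFinset _).1 hv).1⟩)
      (j := fun v _ => v.1) ?_ ?_ ?_ ?_ ?_
    · intro v hv
      rw [Set.Finite.mem_toFinset] at hv ⊢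
      exact hv.2
    · intro v hv
      rw [Set.Finite.mem_toFinset] at hv ⊢
      exact ⟨v.2, hv⟩
    · intro v hv
      rfl
    · intro v hv
      rfl
    · intro v hv
      exact (cv_eq h ⟨v, ((Set.Finite.mem_toFinset _).1 hv).1⟩).symm
  · intro v hv
    rw [Set.Finite.mem_toFinset] at hv
    exact (points_pos h hv.1).ne'

theorem product_pos (h : IsWeil X g S α) (y : ℝ) : 0 < product X g S y := by
  unfold product
  exact finprod_mem_induction (fun x : ℝ => 0 < x) one_pos (fun x y hx hy => mul_pos hx hy)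
    fun v hv => points_pos h hv.1

theorem tempered (hF : Tempered S α F) : Q5.VA.TemperedAt (1 : ℝ) (NS S) (aD 1 S α) F := by
  obtain ⟨h1, h2⟩ := hF
  unfold Q5.VA.TemperedAt
  rw [Complex.ofReal_one]
  refine ⟨h1, fun s hs => (h2 s (by linarith)).congr_fun fun v => ?_⟩
  have h5 := Q5.VA.factorD (i := 1) (S := S) (α := α) v s
  rw [one_eq, Complex.ofReal_one] at h5
  exact h5

theorem dev_eq {ρ A y : ℝ} (hA : 0 < A) (hy : Real.exp 1 ≤ y) :
    devStar S α ρ A y = -DvR (NS S) (aD 1 S α) ρ A y := by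
  have hl : 0 < Real.log y := by linarith [Pool.Agent.TH270.MS.one_le_log hy]
  have h1 : 0 < Real.exp Real.eulerMascheroniConstant * Real.log y :=
    mul_pos (Real.exp_pos _) hl
  have h2 := Real.rpow_pos_of_pos h1 ρ
  unfold devStar
  rw [Real.log_div (mul_pos hA (star_pos y)).ne' h2.ne', Real.log_mul hA.ne'
    (star_pos y).ne', log_star, Real.log_rpow h1, Real.log_mul (Real.exp_pos _).ne' hl.ne',
    Real.log_exp]
  unfold DvR
  ring

theorem lim_shift (F : ℂ → ℂ) (m : ℤ) (A : ℂ) :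
    Tendsto (fun s => F (1 + s) / s ^ m) (𝓝[≠] 0) (𝓝 A) ↔
      Tendsto (fun s => F s / (s - 1) ^ m) (𝓝[≠] 1) (𝓝 A) := by
  have h1 : Tendsto (fun s : ℂ => 1 + s) (𝓝[≠] 0) (𝓝[≠] 1) := by
    refine tendsto_nhdsWithin_iff.2 ⟨?_, ?_⟩
    · have h1 : Tendsto (fun s : ℂ => 1 + s) (𝓝 0) (𝓝 (1 + 0)) :=
        (continuous_const.add continuous_id).tendsto _
      rw [add_zero] at h1
      exact h1.mono_left nhdsWithin_le_nhds
    · filter_upwards [self_mem_nhdsWithin] with s hs
      have hs0 : s ≠ 0 := hs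
      show 1 + s ≠ 1
      simpa using hs0
  have h2 : Tendsto (fun s : ℂ => s - 1) (𝓝[≠] 1) (𝓝[≠] 0) := by
    refine tendsto_nhdsWithin_iff.2 ⟨?_, ?_⟩
    · have h1 : Tendsto (fun s : ℂ => s - 1) (𝓝 1) (𝓝 (1 - 1)) :=
        (continuous_id.sub continuous_const).tendsto _
      rw [sub_self] at h1
      exact h1.mono_left nhdsWithin_le_nhds
    · filter_upwards [self_mem_nhdsWithin] with s hs
      have hs0 : s ≠ 1 := hs
      show s - 1 ≠ 0
      exact sub_ne_zero.2 hs0
  constructor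
  · intro h
    refine (h.comp h2).congr fun s => ?_
    simp only [Function.comp_apply, add_sub_cancel]
  · intro h
    refine (h.comp h1).congr fun s => ?_
    simp only [Function.comp_apply, add_sub_cancel_left]

/-- **The leading coefficient from sharp products over the primes, in mean square.** -/
theorem result (K : Type) [Field K] [NumberField K] (n g : ℕ) (hg : 1 ≤ g)
    (X : Set (MvPolynomial (Fin n) (𝓞 K))) (S : Finset (HeightOneSpectrum (𝓞 K)))
    (α : HeightOneSpectrum (𝓞 K) → Fin (2 * g) → ℂ) (hX : IsWeil X g S α)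
    (F : ℂ → ℂ) (hF : Tempered S α F) (ρ B : ℝ) (hB : 0 < B) :
    List.TFAE [
      LeadingRH F ρ B,
      IntegrableOn (fun y : ℝ => devStar S α ρ B y ^ 2 / y) (Ioi (Real.exp 1)),
      Tendsto (fun Y : ℝ => (∫ y in Real.exp 1..Y, |devStar S α ρ B y| / y) / Real.log Y) atTop
        (𝓝 0)] ∧
    (∀ c : ℝ, Tendsto (squares S α) atTop (𝓝 c) → (LeadingRH F ρ B ↔
      Tendsto (fun Y : ℝ => (∫ y in Real.exp 1..Y, |dev X g S ρ B c y| / y) / Real.log Y) atTop
        (𝓝 0))) ∧
    (LeadingRH F ρ B → ∀ ε : ℝ, 0 < ε →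
      ∫⁻ y in {y : ℝ | Real.exp 1 < y ∧ ε < |devStar S α ρ B y|}, ENNReal.ofReal (1 / y) < ⊤) := by
  have E := (frob hX).sys (by omega)
  obtain ⟨G₀, k, κ, η, C, H⟩ := Q5.VA.temp_data E ((frob hX).real (by omega)) (tempered hF)
  have t := Pool.Agent.Q5.MS.lead_real H ρ hB
  simp only [Complex.ofReal_one] at t H
  have h1 : LeadingRH F ρ B ↔ ((∀ s : ℂ, 0 < s.re → F (1 + s) ≠ 0) ∧
      ∃ m : ℤ, ρ = m ∧ Tendsto (fun s => F (1 + s) / s ^ m) (𝓝[≠] 0) (𝓝 (B : ℂ))) := by
    have hz := Q5.VA.zeros_shiftC F 1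
    rw [Complex.ofReal_one] at hz
    rw [hz]
    simp only [lim_shift]
    exact and_comm
  have h2 : ∀ y : ℝ, Real.exp 1 ≤ y → devStar S α ρ B y = -DvR (NS S) (aD 1 S α) ρ B y :=
    fun y hy => dev_eq hB hy
  have h3 : IntegrableOn (fun y : ℝ => devStar S α ρ B y ^ 2 / y) (Ioi (Real.exp 1)) ↔
      IntegrableOn (fun Y : ℝ => DvR (NS S) (aD 1 S α) ρ B Y ^ 2 / Y) (Ioi (Real.exp 1)) := by
    refine integrableOn_congr_fun (fun y hy => ?_) measurableSet_Ioi
    rw [h2 y (le_of_lt hy), neg_sq]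
  have h4 : LeadingRH F ρ B ↔
      IntegrableOn (fun y : ℝ => devStar S α ρ B y ^ 2 / y) (Ioi (Real.exp 1)) := by
    rw [h1, h3]
    exact t.out 0 1
  refine ⟨?_, fun c hc => ?_, fun h ε hε => ?_⟩
  · tfae_have 1 ↔ 2 := h4
    tfae_have 1 ↔ 3 := by
      have h5 : (fun Y : ℝ => (∫ y in Real.exp 1..Y, |devStar S α ρ B y| / y) / Real.log Y)
          =ᶠ[atTop] fun Y : ℝ => (∫ y in Real.exp 1..Y, |DvR (NS S) (aD 1 S α) ρ B y| / y) /
            Real.log Y := by
        filter_upwards [eventually_ge_atTop (Real.exp 1)] with Y hY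
        congr 1
        refine intervalIntegral.integral_congr fun y hy => ?_
        rw [uIcc_of_le hY] at hy
        rw [h2 y hy.1, abs_neg]
      rw [h1, tendsto_congr' h5]
      exact t.out 0 2
    tfae_finish
  · rw [h1, Pool.Agent.Q5.MS.lead_prime H ρ hB (c := c) (by rw [← squares_eq]; exact hc)]
    refine tendsto_congr' ?_
    filter_upwards [eventually_ge_atTop (Real.exp 1)] with Y hY
    congr 1
    refine intervalIntegral.integral_congr fun y hy => ?_
    rw [uIcc_of_le hY] at hy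
    congr 2
    have hl : 0 < Real.log y := by linarith [Pool.Agent.TH270.MS.one_le_log hy.1]
    have h6 : 0 < Real.exp Real.eulerMascheroniConstant * Real.log y :=
      mul_pos (Real.exp_pos _) hl
    have h7 := Real.rpow_pos_of_pos h6 ρ
    have h8 := product_pos hX y
    unfold dev
    rw [Real.log_div (by positivity) h7.ne', Real.log_mul (by positivity) h8.ne',
      Real.log_mul hB.ne' (Real.exp_pos c).ne', Real.log_exp, log_product hg hX,
      Real.log_rpow h6, Real.log_mul (Real.exp_pos _).ne' hl.ne', Real.log_exp]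
    ring
  · have h5 := h4.1 h
    obtain ⟨⟨m, hm, -⟩, -⟩ := h
    have hset : {y : ℝ | Real.exp 1 < y ∧ ε < |devStar S α ρ B y|} =
        {Y : ℝ | Real.exp 1 < Y ∧ ε < |Dv (NS S) (aD 1 S α) m B Y|} := by
      ext y
      refine and_congr_right fun hy => ?_
      rw [h2 y (le_of_lt hy), abs_neg, hm]
      rfl
    refine fin_log_meas h5 hε ?_
    rw [hset]
    exact dv_meas H m B ε

end Pool.Agent.Results.MP_dfae13_nt.MeanSquareLeadingAbelian
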