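import Pool.Agent.H125b.BW.Sysb
import Pool.Agent.Results.MP_dfae13_nt.MeanSquareLeadingAbelian

/-!
# Brackets for the leading value of the `L`-function of an abelian variety by its local densities, in every window

Let `A` be an abelian variety of dimension `g ≥ 1` over a number field `K` (for example `K = ℚ`), given by homogeneous
polynomials with coefficients in `𝓞_K`, with Frobenius eigenvalues `α_{v,j}`, `v ∉ S`, and let `F` be a continuation of
`L(A, s) = ∏_{v ∉ S} ∏_j (1 - α_{v,j} q_v^{-s})⁻¹`, MEROMORPHIC at every point with `Re s > 1` and at `s = 1`; nothing else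
is assumed of `F`: no growth condition, no functional equation, no continuation beyond the line `Re s = 1`. Let `m` be
the order and `c` the leading value of `F` at `1`, let

`P(x) = ∏_{v ∉ S, q_v ≤ x} #A(k_v)/q_v^g`,  `P*(x) = exp (- ∑_{q_v^k ≤ x} (∑_j α_{v,j}^k)/(k q_v^k))`

be the product of the local densities and the product with the prime powers, both with the SHARP cut-off, and
`T = e^{mγ}/|c|`. Let `0 < δ < 1`. Then:

* UPPER BRACKET. If `F` has no real poles `> 1`: every window `[Y^(1-δ), Y]` with `Y` large contains an `x` with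
  `P*(x) > (T - ε) (log x)^m`.
* LOWER BRACKET. If `F` has no real zeros `> 1`: every window `[Y^(1-δ), Y]` with `Y` large contains an `x` with
  `P*(x) < (T + ε) (log x)^m`.
* If `F` has no real poles `> 1` and `P*(x) ≤ C (log x)^κ` for the `x` in the windows `[Y^(1-δ), Y]` of one unbounded set
  of values of `Y`, then `F` has no zeros and no poles with `Re s > 1` (the Riemann hypothesis for `A`), `m ≤ κ`,
  and `|c| ≥ e^{mγ}/C` if `κ = m`.
* If `F` has no real zeros `> 1` and `P*(x) ≥ C (log x)^κ`, `C > 0`, for the `x` in such windows, then `F` has no zeros and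
  no poles with `Re s > 1`, `κ ≤ m`, and `|c| ≤ e^{mγ}/C` if `κ = m`.
* TWO-SIDED. Without any hypothesis on the real zeros and poles: if `P*(x) ≤ C (log x)^κ` for the `x` in the windows of
  one unbounded set of `Y`, and `P*(x) ≥ C' (log x)^κ'`, `C' > 0`, for the `x` in the windows of another one, then `F` has
  no zeros and no poles with `Re s > 1`, `κ' ≤ m ≤ κ`, `T ≤ C` if `κ = m`, and `C' ≤ T` if `κ' = m`.
* The same for the product `P` of the local densities with `T e^{-c₀}` in place of `T`, if
  `∑_{√x < q_v ≤ x} (∑_j α_{v,j}²)/(2 q_v²) → c₀`. The statements on the zeros, the poles and on `m` hold for `P`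
  without this hypothesis.

The conjecture of Birch and Swinnerton-Dyer predicts `m = rank A(K)` and for `K = ℚ` the leading value
`c = #Ш R_A V_∞ V_bad / (#A(ℚ)_tors #A'(ℚ)_tors)`. So the products of the numbers `#A(𝔽_p)/p^g` return to the asymptotic
value `T (log x)^m` in every long window, from above and from below, without any hypothesis on the complex zeros; and a
ONE-SIDED bound for them of the order `(log x)^m` bounds the leading value of `L(A, s)` from one side and implies the
Riemann hypothesis for `A`.

For elliptic curves this is `BracketsOverFields` of problem `MP_1a91b9_nt`. The upper half for the `L`-functions of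
`H^{2m-1}(X)` is in `OneSequenceOfWindows` of problem `MP_29b22a_nt` (helper18, `Pool.Agent.Q18.W`); the dictionary for
abelian varieties is `Pool.Agent.Q5.VA` (helper5). New are the lower half and the product of the numbers of points with
the constant.
-/

set_option autoImplicit false

namespace Pool.Agent.Results.MP_dfae13_nt.BracketsAbelian

open Filter Topology Set Complex NumberField IsDedekindDomain
open Pool.Agent.Results.MP_dfae13_nt.MeanSquareLeadingAbelian (norm cone IsWeil points upTo
  product productStar squares)
open Pool.Agent.H125b.BW (Free NoRealPoles NoRealZeros IsLeading Windows Brackets OrderBrackets)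

variable {K : Type} [Field K] [NumberField K] {n g : ℕ}

/-- `F` is a continuation of the `L`-function `∏_{v ∉ S} ∏_j (1 - α_{v,j} q_v^{-s})⁻¹` (`Re s > 3/2`), meromorphic at
every point with `Re s > 1` and at `1`. -/
def Continues (S : Finset (HeightOneSpectrum (𝓞 K)))
    (α : HeightOneSpectrum (𝓞 K) → Fin (2 * g) → ℂ) (F : ℂ → ℂ) : Prop :=
  (∀ s : ℂ, 1 < s.re → MeromorphicAt F s) ∧ MeromorphicAt F 1 ∧
  ∀ s : ℂ, (3 : ℝ) / 2 < s.re →
    HasProd (fun v : {v : HeightOneSpectrum (𝓞 K) // v ∉ S} =>
      (∏ j, (1 - α v.1 j * (norm v.1 : ℂ) ^ (-s)))⁻¹) (F s)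

/-! ### translation -/

open Pool.Agent.Results.MP_dfae13_nt.MeanSquareLeadingAbelian (frob squares_eq product_pos log_product
  log_star star_pos one_eq)
open Pool.Agent.Q5.VA (NS aD)
open Pool.Agent.Q18.W (Dw)

theorem data {X : Set (MvPolynomial (Fin n) (𝓞 K))} {S : Finset (HeightOneSpectrum (𝓞 K))}
    {α : HeightOneSpectrum (𝓞 K) → Fin (2 * g) → ℂ} (hg : 1 ≤ g) (hX : IsWeil X g S α) {F : ℂ → ℂ}
    (hF : Continues S α F) : Dw (NS S) (aD 1 S α) (fun s => F (((1 : ℝ) : ℂ) + s)) := by
  obtain ⟨h1, h2, h3⟩ := hF
  refine Pool.Agent.Q18.W.dw_of ((frob hX).sys (by omega)) ((frob hX).real (by omega)) h1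
    (by rw [Complex.ofReal_one]; exact h2) fun s hs => ?_
  refine (h3 s (by linarith)).congr_fun fun v => ?_
  have h5 := Q5.VA.factorD (i := 1) (S := S) (α := α) v s
  rw [one_eq] at h5
  exact h5

/-- **Brackets for the leading value by the local densities of an abelian variety.** -/
theorem result (K : Type) [Field K] [NumberField K] (n g : ℕ) (hg : 1 ≤ g)
    (X : Set (MvPolynomial (Fin n) (𝓞 K))) (S : Finset (HeightOneSpectrum (𝓞 K)))
    (α : HeightOneSpectrum (𝓞 K) → Fin (2 * g) → ℂ) (hX : IsWeil X g S α)
    (F : ℂ → ℂ) (hF : Continues S α F) (m : ℤ) (c : ℂ) (hc : IsLeading F m c) :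
    Brackets F (productStar S α) m (Real.exp (m * Real.eulerMascheroniConstant) / ‖c‖) ∧
    (∀ c₀ : ℝ, Tendsto (squares S α) atTop (𝓝 c₀) →
      Brackets F (product X g S) m (Real.exp (m * Real.eulerMascheroniConstant - c₀) / ‖c‖)) ∧
    OrderBrackets F (product X g S) m := by
  have H := data hg hX hF
  refine ⟨Pool.Agent.H125b.BW.sys_star H hc star_pos log_star, fun c₀ hs => ?_,
    Pool.Agent.H125b.BW.sys_order H hc (product_pos hX) (log_product hg hX)⟩
  exact Pool.Agent.H125b.BW.sys_prime H hc (product_pos hX) (log_product hg hX)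
    (by rw [← squares_eq]; exact hs)

end Pool.Agent.Results.MP_dfae13_nt.BracketsAbelian
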