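import Pool.Agent.Q5.BP.Pack
import Pool.Agent.Results.MP_dfae13_nt.MeanSquareLeadingAbelian

/-!
# The leading-term formula for abelian varieties in exact mean square

Let `A` be an abelian variety of dimension `g` over a number field `K` (for example `K = ℚ`), given by homogeneous
polynomials, with Frobenius eigenvalues `α_{v,j}`, `v ∉ S`, and let `F` be a continuation of `L(A, s)` to a half plane
`Re s > 1 - η`, analytic except perhaps for a pole at `s = 1`, of polynomial growth. Let
`P(y) = ∏_{v ∉ S, q_v ≤ y} #A(k_v)/q_v^g` be the product of the local densities and `P*(y)` the product with the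
prime powers, both with the SHARP cut-off, and for real `ρ` and `B > 0`

`δ*(y) = log (B P*(y) / (e^γ log y)^ρ)`,  `δ(y) = log (B e^c P(y) / (e^γ log y)^ρ)`.

Write `m_t` for the order of vanishing of `F` at `1 + it`. Then the following are equivalent:

* `ρ` is an integer, `F(s)/(s - 1)^ρ → B` for `s → 1`, and `F` has no zeros with `Re s > 1`;
* `(log Y)⁻¹ ∫_e^Y (log y · δ*(y))² dy/y` is bounded for large `Y`;
* the sum `V = ∑_{t ≠ 0} m_t²/t²` converges and `(log Y)⁻¹ ∫_e^Y (log y · δ*(y))² dy/y → V`.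

In this case for every real `t` the means `(log Y)⁻¹ ∫_e^Y (log y · δ*(y)) y^(-it) dy/y` tend to `- i m_t / t` (to `0`
for `t = 0`): the product of the local densities over the primes determines the zeros on the critical line
with their multiplicities. The same holds for `δ` if `log y · (∑_{√y < q_v ≤ y} (∑_j α_{v,j}²)/(2 q_v²) - c) → 0`.

The conjecture of Birch and Swinnerton-Dyer predicts `ρ = rank A(K)` and for `K = ℚ` the leading value
`B = #Ш R_A V_∞ V_bad / (#A(ℚ)_tors #A'(ℚ)_tors)`. With these values the law says: the formula for the leading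
value and the Riemann hypothesis for `A` hold if and only if the error term in the formula
`P*(y) ≈ (e^γ log y)^r / B` is `O(1/log y)` in square mean, and then its mean square is known exactly.

For elliptic curves this is `ExactMeanSquare` of problem `MP_9ab903_nt`; the proof is in `Pool.Agent.Q5.BP`.
-/

set_option autoImplicit false

namespace Pool.Agent.Results.MP_dfae13_nt.ExactMeanSquareAbelian

open Filter Topology Set Complex NumberField IsDedekindDomain MeasureTheory
open Pool.Agent.Results.MP_dfae13_nt.MeanSquareLeadingAbelian (norm cone IsWeil points Tempered upTo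
  product productStar LeadingRH devStar dev squares)

variable {K : Type} [Field K] [NumberField K] {n : ℕ}

/-- The order of vanishing of `F` at `1 + it`. -/
noncomputable def mult (F : ℂ → ℂ) (t : ℝ) : ℕ := (analyticOrderAt F (1 + t * I)).toNat

/-- `(log Y)⁻¹ ∫_e^Y (log y · δ(y))² dy/y`. -/
noncomputable def meanSquare (δ : ℝ → ℝ) (Y : ℝ) : ℝ :=
  (∫ y in Real.exp 1..Y, (Real.log y * δ y) ^ 2 / y) / Real.log Y

/-- `(log Y)⁻¹ ∫_e^Y (log y · δ(y)) y^(-it) dy/y`. -/
noncomputable def coefficient (δ : ℝ → ℝ) (t Y : ℝ) : ℂ :=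
  (∫ y in Real.exp 1..Y, ((Real.log y * δ y : ℝ) : ℂ) * (y : ℂ) ^ (-(t * I)) / (y : ℂ)) /
    (Real.log Y : ℂ)

/-- `∫_e^Y (log y · δ(y))² dy/y ≤ C log Y` for some `C` and all large `Y`. -/
def BoundedMeanSquare (δ : ℝ → ℝ) : Prop := ∃ C : ℝ, ∀ᶠ Y : ℝ in atTop,
  ∫ y in Real.exp 1..Y, (Real.log y * δ y) ^ 2 / y ≤ C * Real.log Y

/-- `∑_t m_t²/t²` converges (the term with `t = 0` is `0`) and is the limit of the mean squares. -/
def SquareLaw (F : ℂ → ℂ) (δ : ℝ → ℝ) : Prop :=
  ∃ V : ℝ, HasSum (fun t : ℝ => ((mult F t : ℝ) / t) ^ 2) V ∧ Tendsto (meanSquare δ) atTop (𝓝 V)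

/-- For every real `t` the means of `log y · δ(y) y^(-it)` tend to `-i m_t/t` (`0` for `t = 0`). -/
def ReadsZeros (F : ℂ → ℂ) (δ : ℝ → ℝ) : Prop :=
  ∀ t : ℝ, Tendsto (coefficient δ t) atTop (𝓝 (-((mult F t : ℂ) * I / t)))

/-! ### translation -/

open Pool.Agent.Results.MP_dfae13_nt.MeanSquareLeadingAbelian (frob tempered dev_eq lim_shift
  squares_eq product_pos log_product)
open Pool.Agent.Q5.VA (NS aD)

theorem lead_iff (F : ℂ → ℂ) (ρ B : ℝ) : LeadingRH F ρ B ↔ ((∀ s : ℂ, 0 < s.re → F (1 + s) ≠ 0) ∧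
    ∃ m : ℤ, ρ = m ∧ Tendsto (fun s => F (1 + s) / s ^ m) (𝓝[≠] 0) (𝓝 (B : ℂ))) := by
  have hz := Q5.VA.zeros_shiftC F 1
  rw [Complex.ofReal_one] at hz
  rw [hz]
  simp only [lim_shift]
  exact and_comm

/-- **The leading-term formula for abelian varieties in exact mean square.** -/
theorem result (K : Type) [Field K] [NumberField K] (n g : ℕ) (hg : 1 ≤ g)
    (X : Set (MvPolynomial (Fin n) (𝓞 K))) (S : Finset (HeightOneSpectrum (𝓞 K)))
    (α : HeightOneSpectrum (𝓞 K) → Fin (2 * g) → ℂ) (hX : IsWeil X g S α)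
    (F : ℂ → ℂ) (hF : Tempered S α F) (ρ B : ℝ) (hB : 0 < B) :
    (List.TFAE [LeadingRH F ρ B, BoundedMeanSquare (devStar S α ρ B),
      SquareLaw F (devStar S α ρ B)] ∧ (LeadingRH F ρ B → ReadsZeros F (devStar S α ρ B))) ∧
    ∀ c : ℝ, Tendsto (fun y : ℝ => Real.log y * (squares S α y - c)) atTop (𝓝 0) →
      List.TFAE [LeadingRH F ρ B, BoundedMeanSquare (dev X g S ρ B c),
        SquareLaw F (dev X g S ρ B c)] ∧ (LeadingRH F ρ B → ReadsZeros F (dev X g S ρ B c)) := by
  have E := (frob hX).sys (by omega)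
  obtain ⟨G₀, k, κ, η, C, H⟩ := Q5.VA.temp_data E ((frob hX).real (by omega)) (tempered hF)
  simp only [Complex.ofReal_one] at H
  have hm : ∀ t : ℝ, Pool.Agent.Q5.BP.mu (fun s => F (1 + s)) t = mult F t :=
    Pool.Agent.Q5.BP.mu_shift F 1
  refine ⟨?_, fun c hc => ?_⟩
  · exact Pool.Agent.Q5.BP.pack H ρ hB (lead_iff F ρ B) hm fun y hy => dev_eq hB hy
  · refine Pool.Agent.Q5.BP.packP H ρ hB (lead_iff F ρ B) hm
      (by rw [← squares_eq]; exact hc) fun y hy => ?_
    have hl : 0 < Real.log y := by linarith [Pool.Agent.TH270.MS.one_le_log hy]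
    have h6 : 0 < Real.exp Real.eulerMascheroniConstant * Real.log y :=
      mul_pos (Real.exp_pos _) hl
    have h7 := Real.rpow_pos_of_pos h6 ρ
    have h8 := product_pos hX y
    unfold dev Pool.Agent.Q5.BP.DvP
    rw [Real.log_div (by positivity) h7.ne', Real.log_mul (by positivity) h8.ne',
      Real.log_mul hB.ne' (Real.exp_pos c).ne', Real.log_exp, log_product hg hX,
      Real.log_rpow h6, Real.log_mul (Real.exp_pos _).ne' hl.ne', Real.log_exp]
    ring

end Pool.Agent.Results.MP_dfae13_nt.ExactMeanSquareAbelian
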