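import Pool.Agent.Q5.OM.Pack
import Pool.Agent.Results.MP_dfae13_nt.ExactMeanSquareAbelian

/-!
# Abelian varieties: the product of the local densities exceeds and undershoots its predicted value

Let `A` be an abelian variety of dimension `g` over a number field `K` (for example `K = ℚ`), given by homogeneous
polynomials, with Frobenius eigenvalues `α_{v,j}`, `v ∉ S`, and let `F` be a continuation of `L(A, s)` to a half plane
`Re s > 1 - η`, analytic except perhaps for a pole at `s = 1`, of polynomial growth. Let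
`P(y) = ∏_{v ∉ S, q_v ≤ y} #A(k_v)/q_v^g` be the product of the local densities and `P*(y)` the product with the
prime powers, both with the SHARP cut-off, and for real `ρ` and `B > 0`

`δ*(y) = log (B P*(y) / (e^γ log y)^ρ)`,  `δ(y) = log (B e^c P(y) / (e^γ log y)^ρ)`.

Write `m_t` for the order of vanishing of `F` at `1 + it`, and `(L)` for: `ρ` is an integer, `F(s)/(s - 1)^ρ → B` for
`s → 1`, and `F` has no zeros with `Re s > 1`.

1. UPPER BOUNDS. If `log y · δ*(y) ≤ D` for all large `y`, then `F` has no zeros with `Re s > 1`, and under `(L)`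
   `D ≥ m_t/|t|` for every `t ≠ 0`.
2. LOWER BOUNDS. If `F` has no REAL zeros `s > 1`, the same follows from `log y · δ*(y) ≥ -D` for all large `y`.
3. POSITIVE PROPORTION. Under `(L)`, for every `t ≠ 0` and `0 ≤ c < m_t/(2|t|)` the sets `{y : log y · δ*(y) > c}` and
   `{y : log y · δ*(y) < -c}` both have lower logarithmic density at least `(m_t/|t| - 2c)²/(4V)`, where
   `V = ∑_{t ≠ 0} m_t²/t²`.

The same holds for `δ` if `log y · (∑_{√y < q_v ≤ y} (∑_j α_{v,j}²)/(2 q_v²) - c) → 0`.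

The conjecture predicts for `K = ℚ` that `ρ = rank A(ℚ)` and
`B = #Ш R_A V_∞ V_bad / (#A(ℚ)_tors #A'(ℚ)_tors)`. So the formula for the leading value, in the form
`P*(y) ≈ (e^γ log y)^r / B`, cannot hold with an error `o(1/log y)` on either side unless `F` has no zeros
`1 + it`, `t ≠ 0`, at all, and a one-sided error bound `O(1/log y)` contains the Riemann hypothesis for `A`.

For elliptic curves this is `Oscillation` of problem `MP_1a91b9_nt`; the proof is in `Pool.Agent.Q5.OM`.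
-/

set_option autoImplicit false

namespace Pool.Agent.Results.MP_dfae13_nt.OscillationAbelian

open Filter Topology Set Complex NumberField IsDedekindDomain MeasureTheory
open Pool.Agent.Results.MP_dfae13_nt.MeanSquareLeadingAbelian (norm cone IsWeil points Tempered upTo
  product productStar LeadingRH devStar dev squares)
open Pool.Agent.Results.MP_dfae13_nt.ExactMeanSquareAbelian (mult meanSquare SquareLaw ReadsZeros)

/-- `F` has no zeros with `Re s > 1`. -/
def RH (F : ℂ → ℂ) : Prop := ∀ s : ℂ, 1 < s.re → F s ≠ 0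

/-- `(log Y)⁻¹ ∫_e^Y 1[W(y) > c] dy/y`, the logarithmic share of the `y ≤ Y` with `W(y) > c`. -/
noncomputable def share (W : ℝ → ℝ) (c Y : ℝ) : ℝ :=
  (∫ y in Real.exp 1..Y, (if c < W y then (1 : ℝ) else 0) / y) / Real.log Y

/-- The upper bound `log y · δ(y) ≤ D` for large `y` implies `RH F`, and, if `ρ` and `B` are the order and the leading
coefficient of `F` at `1`, that `m_t/|t| ≤ D` for all `t ≠ 0`. -/
def UpperBounds (F : ℂ → ℂ) (ρ B : ℝ) (δ : ℝ → ℝ) : Prop :=
  ∀ D : ℝ, (∀ᶠ y : ℝ in atTop, Real.log y * δ y ≤ D) →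
    RH F ∧ (LeadingRH F ρ B → ∀ t : ℝ, t ≠ 0 → (mult F t : ℝ) / |t| ≤ D)

/-- If `F` has no real zeros `> 1`: the lower bound `log y · δ(y) ≥ -D` for large `y` implies `RH F`, and, if `ρ`
and `B` are the order and the leading coefficient of `F` at `1`, that `m_t/|t| ≤ D` for all `t ≠ 0`. -/
def LowerBounds (F : ℂ → ℂ) (ρ B : ℝ) (δ : ℝ → ℝ) : Prop :=
  ∀ D : ℝ, (∀ x : ℝ, 1 < x → F x ≠ 0) → (∀ᶠ y : ℝ in atTop, -D ≤ Real.log y * δ y) →
    RH F ∧ (LeadingRH F ρ B → ∀ t : ℝ, t ≠ 0 → (mult F t : ℝ) / |t| ≤ D)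

/-- Under `LeadingRH F ρ B`, for `t ≠ 0` and `0 ≤ c < m_t/(2|t|)` the sets `{y : log y · δ(y) > c}` and
`{y : log y · δ(y) < -c}` have lower logarithmic density at least `(m_t/|t| - 2c)²/(4V)`, `V = ∑ m_t²/t²`. -/
def Densities (F : ℂ → ℂ) (ρ B : ℝ) (δ : ℝ → ℝ) : Prop :=
  LeadingRH F ρ B → ∀ V : ℝ, HasSum (fun t : ℝ => ((mult F t : ℝ) / t) ^ 2) V →
    ∀ t c : ℝ, t ≠ 0 → 0 ≤ c → 2 * c < (mult F t : ℝ) / |t| → ∀ ε : ℝ, 0 < ε → ∀ᶠ Y : ℝ in atTop,
      ((mult F t : ℝ) / |t| - 2 * c) ^ 2 / (4 * V) - ε ≤ share (fun y => Real.log y * δ y) c Y ∧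
      ((mult F t : ℝ) / |t| - 2 * c) ^ 2 / (4 * V) - ε ≤ share (fun y => -(Real.log y * δ y)) c Y

/-- All three statements. -/
def Oscillates (F : ℂ → ℂ) (ρ B : ℝ) (δ : ℝ → ℝ) : Prop :=
  UpperBounds F ρ B δ ∧ LowerBounds F ρ B δ ∧ Densities F ρ B δ

/-! ### translation -/

open Pool.Agent.Results.MP_dfae13_nt.MeanSquareLeadingAbelian (frob tempered dev_eq lim_shift
  squares_eq product_pos log_product)
open Pool.Agent.Q5.VA (NS aD)
open Pool.Agent.TH270.MS (Mc DvR BM)
open Pool.Agent.Q5.BP (bm_log DvP bm_dvP dvP_close)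
open Pool.Agent.Q5.MS (bm_dvR)

theorem zeros {F : ℂ → ℂ} : (∀ s : ℂ, 0 < s.re → F (1 + s) ≠ 0) ↔ RH F := by
  constructor
  · intro h s hs
    have := h (s - 1) (by simpa using hs)
    rwa [add_sub_cancel] at this
  · intro h s hs
    exact h _ (by simpa using hs)

theorem oscillates {G₀ : ℂ → ℂ} {k κ : ℕ} {η C : ℝ} {X : Type} {d : ℕ} {N : X → ℕ}
    {α : X → Fin d → ℂ} {F : ℂ → ℂ} (H : Mc N α (fun s => F (1 + s)) G₀ k κ η C) {ρ A : ℝ}
    {δ : ℝ → ℝ} (hW : BM fun y => Real.log y * δ y)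
    (hcl : Tendsto (fun y : ℝ => Real.log y * -DvR N α ρ A y - Real.log y * δ y) atTop (𝓝 0))
    (h1 : LeadingRH F ρ A → SquareLaw F δ) (h2 : LeadingRH F ρ A → ReadsZeros F δ) :
    Oscillates F ρ A δ := by
  obtain ⟨k1, k2, k3⟩ := Pool.Agent.Q5.OM.om_pack H ρ A (P := LeadingRH F ρ A) (m := mult F) hW hcl
    h1 h2
  refine ⟨fun B hB => ?_, fun B hx hB => ?_, k3⟩
  · obtain ⟨h3, h4⟩ := k1 B hB
    exact ⟨zeros.1 h3, h4⟩
  · obtain ⟨h3, h4⟩ := k2 B (fun x hx0 => by
      have := hx (1 + x) (by linarith)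
      push_cast at this
      exact this) hB
    exact ⟨zeros.1 h3, h4⟩

/-- **Oscillation of the error in the leading-term formula for abelian varieties.** -/
theorem result (K : Type) [Field K] [NumberField K] (n g : ℕ) (hg : 1 ≤ g)
    (X : Set (MvPolynomial (Fin n) (𝓞 K))) (S : Finset (HeightOneSpectrum (𝓞 K)))
    (α : HeightOneSpectrum (𝓞 K) → Fin (2 * g) → ℂ) (hX : IsWeil X g S α)
    (F : ℂ → ℂ) (hF : Tempered S α F) (ρ B : ℝ) (hB : 0 < B) :
    Oscillates F ρ B (devStar S α ρ B) ∧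
    ∀ c : ℝ, Tendsto (fun y : ℝ => Real.log y * (squares S α y - c)) atTop (𝓝 0) →
      Oscillates F ρ B (dev X g S ρ B c) := by
  have E := (frob hX).sys (by omega)
  obtain ⟨G₀, k, κ, η, C, H⟩ := Q5.VA.temp_data E ((frob hX).real (by omega)) (tempered hF)
  simp only [Complex.ofReal_one] at H
  obtain ⟨⟨t1, r1⟩, t2⟩ := Pool.Agent.Results.MP_dfae13_nt.ExactMeanSquareAbelian.result K n g hg X S α hX
    F hF ρ B hB
  have b1 := bm_log.mul (bm_dvR H ρ B).neg
  refine ⟨?_, fun c hc => ?_⟩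
  · refine oscillates H ?_ ?_ (fun h => (t1.out 0 2).1 h) r1
    · exact Pool.Agent.Q5.OM.bm_congr b1 fun y hy => by rw [dev_eq hB hy]
    · refine tendsto_const_nhds.congr' ?_
      filter_upwards [eventually_ge_atTop (Real.exp 1)] with y hy
      rw [dev_eq hB hy, sub_self]
  · obtain ⟨t3, r3⟩ := t2 c hc
    have hcl := dvP_close H.E ρ B (c := c) (by rw [← squares_eq]; exact hc)
    have e : ∀ y : ℝ, Real.exp 1 ≤ y → dev X g S ρ B c y = DvP _ _ ρ B c y := fun y hy => by
      have hl : 0 < Real.log y := by linarith [Pool.Agent.TH270.MS.one_le_log hy]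
      have h6 : 0 < Real.exp Real.eulerMascheroniConstant * Real.log y :=
        mul_pos (Real.exp_pos _) hl
      have h7 := Real.rpow_pos_of_pos h6 ρ
      have h8 := product_pos hX y
      unfold dev Pool.Agent.Q5.BP.DvP
      rw [Real.log_div (by positivity) h7.ne', Real.log_mul (by positivity) h8.ne',
        Real.log_mul hB.ne' (Real.exp_pos c).ne', Real.log_exp, log_product hg hX,
        Real.log_rpow h6, Real.log_mul (Real.exp_pos _).ne' hl.ne', Real.log_exp]
      ring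
    refine oscillates H ?_ ?_ (fun h => (t3.out 0 2).1 h) r3
    · exact Pool.Agent.Q5.OM.bm_congr (bm_log.mul (bm_dvP H ρ B c)) fun y hy => by rw [e y hy]
    · have h3 := hcl.neg
      rw [neg_zero] at h3
      refine h3.congr' ?_
      filter_upwards [eventually_ge_atTop (Real.exp 1)] with y hy
      rw [e y hy]
      ring

end Pool.Agent.Results.MP_dfae13_nt.OscillationAbelian
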